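import Pool.Agent.Helper4.It.Goals

/-! C4: the zeta functions of the strata of a chart. -/

namespace Mono.It

open Finset Filter Topology Mono.Comp

namespace H60

variable {n : ℕ}

theorem NA_mem {A : Finset (Fin n → ℤ)} (hA : A.Nonempty) (hA0 : ∀ v ∈ A, ∀ i, 0 ≤ v i)
    {a : Fin n → ℤ} (ha : ∀ i, 0 ≤ a i) : ∃ v ∈ A, NA A a = a ⬝ᵥ v := by
  have hne : {z : ℤ | ∃ v ∈ A, z = a ⬝ᵥ v}.Nonempty := by
    obtain ⟨v, hv⟩ := hA
    exact ⟨a ⬝ᵥ v, v, hv, rfl⟩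
  have hbd : BddBelow {z : ℤ | ∃ v ∈ A, z = a ⬝ᵥ v} := by
    refine ⟨0, ?_⟩
    rintro z ⟨v, hv, rfl⟩
    exact Finset.sum_nonneg fun i _ => mul_nonneg (ha i) (hA0 v hv i)
  exact Int.csInf_mem hne hbd

theorem NA_nonneg {A : Finset (Fin n → ℤ)} (hA : A.Nonempty) (hA0 : ∀ v ∈ A, ∀ i, 0 ≤ v i)
    {a : Fin n → ℤ} (ha : ∀ i, 0 ≤ a i) : 0 ≤ NA A a := by
  obtain ⟨v, hv, h⟩ := NA_mem hA hA0 ha
  rw [h]
  exact Finset.sum_nonneg fun i _ => mul_nonneg (ha i) (hA0 v hv i)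

theorem NA_pos {A : Finset (Fin n → ℤ)} (hA : A.Nonempty) (h0 : (0 : Fin n → ℤ) ∉ A)
    (hA0 : ∀ v ∈ A, ∀ i, 0 ≤ v i) {a : Fin n → ℤ} (ha : ∀ i, 0 < a i) : 0 < NA A a := by
  obtain ⟨v, hv, h⟩ := NA_mem hA hA0 fun i => (ha i).le
  have hv0 : v ≠ 0 := fun h' => h0 (h' ▸ hv)
  obtain ⟨i, hi⟩ := Function.ne_iff.1 hv0
  have hi' : 0 < v i := lt_of_le_of_ne (hA0 v hv i) (Ne.symm hi)
  rw [h]
  exact Finset.sum_pos' (fun j _ => mul_nonneg (ha j).le (hA0 v hv j))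
    ⟨i, mem_univ i, mul_pos (ha i) hi'⟩

theorem latDist_pos {A : Finset (Fin n → ℤ)} (hA : A.Nonempty) (h0 : (0 : Fin n → ℤ) ∉ A)
    (hA0 : ∀ v ∈ A, ∀ i, 0 ≤ v i) {φ : Finset (Fin n → ℤ)} (hφ : φ ∈ cfaces A) :
    0 < latDist φ := by
  classical
  rw [cfaces, Finset.mem_filter] at hφ
  obtain ⟨-, a, ha, rfl⟩ := hφ
  have hpos := NA_pos hA h0 hA0 ha
  have hne : {N : ℕ | 0 < N ∧ ∃ k : Fin n → ℤ, ∀ u ∈ face A a, k ⬝ᵥ u = (N : ℤ)}.Nonempty := by
    refine ⟨(NA A a).toNat, by omega, a, fun u hu => ?_⟩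
    rw [(Finset.mem_filter.1 hu).2, Int.toNat_of_nonneg hpos.le]
  exact (Nat.sInf_mem hne).1

theorem cone_facts {T : Fan n} {δ : Finset (Fin n → ℤ)} (hδ : δ ∈ T.faces) {a : Fin n → ℤ}
    (ha : a ∈ δ) : (∀ i, 0 ≤ a i) ∧ a ≠ 0 := by
  obtain ⟨F, hF, hδF⟩ := Finset.mem_biUnion.1 hδ
  have haF : a ∈ F := Finset.mem_powerset.1 hδF ha
  refine ⟨T.vert_nonneg a (T.mx_sub F hF haF), ?_⟩
  rintro rfl
  refine (T.mx_indep F hF).ne_zero ⟨0, haF⟩ ?_
  ext i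
  simp [toR]

theorem wtN_pos {ν : Fin n → ℕ} (hν : ∀ i, 0 < ν i) {a : Fin n → ℤ} (ha : ∀ i, 0 ≤ a i)
    (ha0 : a ≠ 0) : 0 < wtN ν a := by
  obtain ⟨i, hi⟩ := Function.ne_iff.1 ha0
  have hi' : 0 < a i := lt_of_le_of_ne (ha i) (Ne.symm hi)
  refine Finset.sum_pos' (fun j _ => Nat.zero_le _) ⟨i, mem_univ i, ?_⟩
  exact Nat.mul_pos (hν i) (by omega)

theorem wtN_cast (ν : Fin n → ℕ) {a : Fin n → ℤ} (ha : ∀ i, 0 ≤ a i) :
    ((wtN ν a : ℕ) : ℂ) = ∑ i, (ν i : ℂ) * (a i : ℂ) := by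
  rw [wtN, Nat.cast_sum]
  refine Finset.sum_congr rfl fun i _ => ?_
  rw [Nat.cast_mul]
  congr 1
  have h := Int.toNat_of_nonneg (ha i)
  exact_mod_cast congrArg (fun z : ℤ => (z : ℂ)) h

open Classical in
/-- the term of a stratum -/
noncomputable def zt (e : ℕ) (t : QStratum) : RatFunc ℂ :=
  if ∀ q ∈ t.2, e ∣ q.1 then RatFunc.C (t.1 : ℂ) *
    (t.2.map (fun q => 1 / (RatFunc.C (q.1 : ℂ) * RatFunc.X + RatFunc.C (q.2 : ℂ)))).prod
    else 0

theorem ZQ_eq (g : List QStratum) (e : ℕ) : ZQ g e = (g.map (zt e)).sum := rfl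

theorem ZQ_append (g g' : List QStratum) (e : ℕ) : ZQ (g ++ g') e = ZQ g e + ZQ g' e := by
  rw [ZQ_eq, ZQ_eq, ZQ_eq, List.map_append, List.sum_append]

theorem ZQ_flatMap {α : Type*} (l : List α) (f : α → List QStratum) (e : ℕ) :
    ZQ (l.flatMap f) e = (l.map fun x => ZQ (f x) e).sum := by
  induction l with
  | nil => rfl
  | cons a l ih =>
    rw [List.flatMap_cons, ZQ_append, ih, List.map_cons, List.sum_cons]

theorem dvd_dataF {ν : Fin n → ℕ} {A δ : Finset (Fin n → ℤ)} (hn : ∀ a ∈ δ, 0 ≤ NA A a)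
    (e : ℕ) : (∀ q ∈ dataF ν A δ, e ∣ q.1) ↔ ∀ a ∈ δ, (e : ℤ) ∣ NA A a := by
  constructor
  · intro h a ha
    by_cases h0 : NA A a = 0
    · rw [h0]
      exact dvd_zero _
    · have h1 := h ((NA A a).toNat, wtN ν a) (List.mem_map.2 ⟨a, Finset.mem_toList.2
        (Finset.mem_filter.2 ⟨ha, h0⟩), rfl⟩)
      have h2 : (e : ℤ) ∣ ((NA A a).toNat : ℤ) := Int.natCast_dvd_natCast.2 h1
      rwa [Int.toNat_of_nonneg (hn a ha)] at h2
  · intro h q hq
    obtain ⟨a, ha, rfl⟩ := List.mem_map.1 hq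
    have ha' := (Finset.mem_filter.1 (Finset.mem_toList.1 ha)).1
    have h2 := h a ha'
    rw [← Int.toNat_of_nonneg (hn a ha')] at h2
    exact Int.natCast_dvd_natCast.1 h2

/-- the product of the factors -/
theorem prod_data {ν : Fin n → ℕ} {A δ : Finset (Fin n → ℤ)} (hn : ∀ a ∈ δ, 0 ≤ NA A a)
    (ha0 : ∀ a ∈ δ, ∀ i, 0 ≤ a i) (w : ℂ) :
    RatFunc.C (w * ∏ a ∈ δ.filter (fun a => NA A a = 0), ((wtN ν a : ℕ) : ℂ)⁻¹) *
      ((dataF ν A δ).map (fun q => 1 / (RatFunc.C (q.1 : ℂ) * RatFunc.X +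
        RatFunc.C (q.2 : ℂ)))).prod =
    RatFunc.C w * (1 / ∏ a ∈ δ, (RatFunc.C (NA A a : ℂ) * RatFunc.X +
      RatFunc.C (∑ i, (ν i : ℂ) * (a i : ℂ)))) := by
  have h1 : ((dataF ν A δ).map (fun q => 1 / (RatFunc.C (q.1 : ℂ) * RatFunc.X +
      RatFunc.C (q.2 : ℂ)))).prod = ∏ a ∈ δ.filter (fun a => NA A a ≠ 0),
        (RatFunc.C (NA A a : ℂ) * RatFunc.X + RatFunc.C (∑ i, (ν i : ℂ) * (a i : ℂ)))⁻¹ := by
    rw [dataF, List.map_map, Finset.prod_map_toList]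
    refine Finset.prod_congr rfl fun a ha => ?_
    have ha' := (Finset.mem_filter.1 ha).1
    have h2 : (((NA A a).toNat : ℕ) : ℂ) = ((NA A a : ℤ) : ℂ) := by
      have h := Int.toNat_of_nonneg (hn a ha')
      exact_mod_cast congrArg (fun z : ℤ => (z : ℂ)) h
    change 1 / (RatFunc.C (((NA A a).toNat : ℕ) : ℂ) * RatFunc.X +
      RatFunc.C ((wtN ν a : ℕ) : ℂ)) = _
    rw [h2, wtN_cast ν (ha0 a ha'), one_div]
  have h3 : RatFunc.C (∏ a ∈ δ.filter (fun a => NA A a = 0), ((wtN ν a : ℕ) : ℂ)⁻¹) =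
      ∏ a ∈ δ.filter (fun a => NA A a = 0),
        (RatFunc.C (NA A a : ℂ) * RatFunc.X + RatFunc.C (∑ i, (ν i : ℂ) * (a i : ℂ)))⁻¹ := by
    rw [map_prod]
    refine Finset.prod_congr rfl fun a ha => ?_
    obtain ⟨ha', h0⟩ := Finset.mem_filter.1 ha
    rw [h0, Int.cast_zero, map_zero, zero_mul, zero_add, ← wtN_cast ν (ha0 a ha'), map_inv₀]
  rw [h1, map_mul, h3, mul_assoc, Finset.prod_filter_mul_prod_filter_not, one_div,
    Finset.prod_inv_distrib]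

end H60

open H60

theorem zqChart (h : DvdCone) : ZQChart := by
  intro n χ ν A T hν hA h0 hA0 hT
  have key : ∀ φ ∈ cfaces A, ∀ δ ∈ coneF A T φ, δ ∈ T.faces ∧ (∀ a ∈ δ, 0 ≤ NA A a) ∧
      (∀ a ∈ δ, ∀ i, 0 ≤ a i) ∧ idx (δ : Set (Fin n → ℤ)) = 1 ∧
      ∀ e : ℕ, (∀ q ∈ dataF ν A δ, e ∣ q.1) ↔ e ∣ latDist φ := by
    intro φ hφ δ hδ
    obtain ⟨hδ1, -⟩ := Finset.mem_filter.1 hδ
    have hn : ∀ a ∈ δ, 0 ≤ NA A a := fun a ha => H60.NA_nonneg hA hA0 (cone_facts hδ1 ha).1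
    obtain ⟨h1, h2⟩ := h n A T hA h0 hA0 hT φ hφ δ hδ
    exact ⟨hδ1, hn, fun a ha => (cone_facts hδ1 ha).1, h1, fun e =>
      (dvd_dataF hn e).trans (h2 e)⟩
  constructor
  · -- good strata
    have hgood : ∀ φ ∈ cfaces A, ∀ δ ∈ coneF A T φ, dataF ν A δ ≠ [] ∧
        ∀ q ∈ dataF ν A δ, 0 < q.1 ∧ 0 < q.2 := by
      intro φ hφ δ hδ
      obtain ⟨hδ1, hn, ha0, -, hd⟩ := key φ hφ δ hδ
      constructor
      · intro hnil
        have h1 := (hd 0).1 (by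
          rw [hnil]
          intro q hq
          exact absurd hq List.not_mem_nil)
        have h2 := latDist_pos hA h0 hA0 hφ
        rw [Nat.eq_zero_of_zero_dvd h1] at h2
        exact lt_irrefl _ h2
      · intro q hq
        obtain ⟨a, ha, rfl⟩ := List.mem_map.1 hq
        obtain ⟨ha', hne⟩ := Finset.mem_filter.1 (Finset.mem_toList.1 ha)
        have h1 := hn a ha'
        refine ⟨?_, wtN_pos hν (ha0 a ha') (cone_facts hδ1 ha').2⟩
        change 0 < (NA A a).toNat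
        omega
    intro t ht
    obtain ⟨φ, hφ, ht⟩ := List.mem_flatMap.1 ht
    obtain ⟨δ, hδ, ht⟩ := List.mem_flatMap.1 ht
    obtain ⟨g1, g2⟩ := hgood φ (Finset.mem_toList.1 hφ) δ (Finset.mem_toList.1 hδ)
    by_cases hd : dimF φ = 0
    · rw [if_pos hd] at ht
      rw [List.mem_singleton.1 ht]
      exact ⟨g1, g2⟩
    · rw [if_neg hd] at ht
      rcases List.mem_cons.1 ht with rfl | ht
      · exact ⟨g1, g2⟩
      · rw [List.mem_singleton.1 ht]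
        refine ⟨List.cons_ne_nil _ _, fun q hq => ?_⟩
        rcases List.mem_cons.1 hq with rfl | hq
        · exact ⟨Nat.one_pos, Nat.one_pos⟩
        · exact g2 q hq
  · intro e he
    rw [chartStrata, ZQ_flatMap, Finset.sum_map_toList, ZDLt, Finset.mul_sum, Finset.sum_filter]
    refine Finset.sum_congr rfl fun φ hφ => ?_
    rw [ZQ_flatMap, Finset.sum_map_toList]
    have hX : (RatFunc.X + 1 : RatFunc ℂ) ≠ 0 := by
      intro hX
      have h1 : (RatFunc.X : RatFunc ℂ) = RatFunc.C (-1) := by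
        rw [eq_neg_of_add_eq_zero_left hX, map_neg, map_one]
      have h2 := congrArg RatFunc.intDegree h1
      rw [RatFunc.intDegree_X, RatFunc.intDegree_C] at h2
      exact one_ne_zero h2
    have hone : (1 : RatFunc ℂ) - 1 / (RatFunc.X + 1) = RatFunc.X / (RatFunc.X + 1) := by
      rw [eq_div_iff hX, sub_mul, div_mul_cancel₀ _ hX]
      ring
    -- the first stratum
    have hfirst : ∀ δ ∈ coneF A T φ, e ∣ latDist φ → zt e (wgtF χ ν A φ δ, dataF ν A δ) =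
        RatFunc.C (χ : ℂ) * ((-1) ^ dimF φ * RatFunc.C (nvol φ : ℂ)) *
          (RatFunc.C (idx (δ : Set (Fin n → ℤ)) : ℂ) /
            ∏ a ∈ δ, (RatFunc.C (NA A a : ℂ) * RatFunc.X +
              RatFunc.C (∑ i, (ν i : ℂ) * (a i : ℂ)))) := by
      intro δ hδ hed
      obtain ⟨hδ1, hn, ha0, hidx, hd⟩ := key φ hφ δ hδ
      rw [zt, if_pos ((hd e).2 hed), hidx, Nat.cast_one, map_one]
      have h1 : ((wgtF χ ν A φ δ : ℚ) : ℂ) = ((χ : ℂ) * ((-1) ^ dimF φ * (nvol φ : ℂ))) *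
          ∏ a ∈ δ.filter (fun a => NA A a = 0), ((wtN ν a : ℕ) : ℂ)⁻¹ := by
        rw [wgtF]
        push_cast
        rfl
      change RatFunc.C ((wgtF χ ν A φ δ : ℚ) : ℂ) * _ = _
      rw [h1, prod_data hn ha0, map_mul, map_mul, map_pow, map_neg, map_one]
    have hzero : ∀ δ ∈ coneF A T φ, ¬ e ∣ latDist φ →
        zt e (wgtF χ ν A φ δ, dataF ν A δ) = 0 ∧
        zt e (-wgtF χ ν A φ δ, (1, 1) :: dataF ν A δ) = 0 := by
      intro δ hδ hed
      obtain ⟨hδ1, hn, ha0, hidx, hd⟩ := key φ hφ δ hδ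
      constructor
      · rw [zt, if_neg]
        exact fun h' => hed ((hd e).1 h')
      · rw [zt, if_neg]
        exact fun h' => hed ((hd e).1 fun q hq => h' q (List.mem_cons_of_mem _ hq))
    have hsecond : ∀ δ ∈ coneF A T φ, zt e (-wgtF χ ν A φ δ, (1, 1) :: dataF ν A δ) =
        if e = 1 then -(1 / (RatFunc.X + 1)) * zt e (wgtF χ ν A φ δ, dataF ν A δ) else 0 := by
      intro δ hδ
      by_cases he1 : e = 1
      · subst he1
        have hp : ∀ l : List (ℕ × ℕ), ∀ q ∈ l, 1 ∣ q.1 := fun l q _ => one_dvd _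
        rw [if_pos rfl, zt, zt, if_pos (hp _), if_pos (hp _)]
        change RatFunc.C (((-wgtF χ ν A φ δ : ℚ)) : ℂ) * (List.map _ ((1, 1) :: dataF ν A δ)).prod =
          -(1 / (RatFunc.X + 1)) * (RatFunc.C ((wgtF χ ν A φ δ : ℚ) : ℂ) * (List.map _ _).prod)
        rw [List.map_cons, List.prod_cons, Nat.cast_one, map_one, one_mul, Rat.cast_neg, map_neg]
        ring
      · rw [if_neg he1, zt, if_neg]
        intro h'
        exact he1 (Nat.dvd_one.1 (h' (1, 1) List.mem_cons_self))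
    by_cases hed : e ∣ latDist φ
    · rw [if_pos hed, Finset.mul_sum, Finset.mul_sum]
      refine Finset.sum_congr rfl fun δ hδ => ?_
      by_cases hd : dimF φ = 0
      · rw [if_pos hd, if_pos hd, ZQ_eq, List.map_singleton, List.sum_singleton,
          hfirst δ hδ hed, hd, pow_zero]
        ring
      · rw [if_neg hd, if_neg hd, ZQ_eq, List.map_cons, List.sum_cons, List.map_singleton,
          List.sum_singleton, hsecond δ hδ, hfirst δ hδ hed]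
        by_cases he1 : e = 1
        · rw [if_pos he1, if_pos he1, ← hone]
          ring
        · rw [if_neg he1, if_neg he1]
          ring
    · rw [if_neg hed]
      refine Finset.sum_eq_zero fun δ hδ => ?_
      obtain ⟨z1, z2⟩ := hzero δ hδ hed
      by_cases hd : dimF φ = 0
      · rw [if_pos hd, ZQ_eq, List.map_singleton, List.sum_singleton, z1]
      · rw [if_neg hd, ZQ_eq, List.map_cons, List.sum_cons, List.map_singleton,
          List.sum_singleton, z1, z2, add_zero]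

end Mono.It
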